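import Mathlib
import Pool.Prelude.Def_F_c31e40fa
import Pool.Agent.K1H32.MB.LC

set_option autoImplicit false

open Filter Topology MeasureTheory

namespace Pool.Agent.Results.MP_fcb70f_an.AlmostAllDegrees

/-- `K` is locally connected at `c`: every neighbourhood of `c` contains an open `V ∋ c` with
`K ∩ V` connected (or empty). -/
def LocallyConnectedAt (K : Set ℂ) (c : ℂ) : Prop :=
  ∀ U ∈ 𝓝 c, ∃ V ⊆ U, IsOpen V ∧ c ∈ V ∧ IsPreconnected (K ∩ V)

/-- The degrees `n` in which the Multibrot set of power `n` is not locally connected at `c`. -/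
def exceptional (c : ℂ) : Set ℕ := {n | ¬ LocallyConnectedAt (N62a1eb23.multibrotSet n) c}

/-- The degrees `n` in which the Multibrot set of power `n` is not locally connected at some `c`
with `c ^ (n - 1) = ζ`. -/
def exceptionalRotated (ζ : ℂ) : Set ℕ := {n | ∃ c, c ^ (n - 1) = ζ ∧ n ∈ exceptional c}

/-- The gaps between the members of `S` tend to infinity, and `S` has density zero. -/
def Sparse (S : Set ℕ) : Prop :=
  (∀ Q : ℕ, {n | n ∈ S ∧ ∃ m ∈ S, n < m ∧ m ≤ n + Q}.Finite) ∧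
    Tendsto (fun N : ℕ => ((S ∩ Set.Iio N).ncard : ℝ) / N) atTop (𝓝 0)

/-- `S` has at most a constant times `(log N) ^ s` members up to `N`, for every `s > 2`. -/
def VerySparse (S : Set ℕ) : Prop :=
  ∀ s : ℝ, 2 < s → ∃ K : ℝ, ∀ N : ℕ, 2 ≤ N → ((S ∩ Set.Iic N).ncard : ℝ) ≤ K * Real.log N ^ s

/-- For every fixed parameter `c`, and for every fixed value of `c ^ (n - 1)`, the Multibrot sets
are locally connected there in almost all degrees. -/
theorem result :
    -- local connectivity of the Multibrot sets in terms of the exceptional degrees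
    (∀ n : ℕ, LocallyConnectedSpace (N62a1eb23.multibrotSet n) ↔ ∀ c, n ∉ exceptional c) ∧
    -- fixed `c`: location of the exceptional degrees
    (∀ c : ℂ, ∀ n ∈ exceptional c, 2 ≤ n ∧ |Real.log ‖c‖| ≤ 200 * Real.log n / n ∧
      (‖c‖ = 1 → ‖c ^ (3 * (n - 1)) - 1‖ ≤ 200 * Real.log n / n)) ∧
    -- only finitely many exceptional degrees off the unit circle
    (∀ c : ℂ, ‖c‖ ≠ 1 → (exceptional c).Finite) ∧
    -- at a root of unity all but finitely many exceptional degrees are resonant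
    (∀ c : ℂ, (∃ k, 0 < k ∧ c ^ k = 1) →
      {n | n ∈ exceptional c ∧ ¬ (6 ∣ n ∧ (c ^ n + c) ^ n + c = c ^ n + c)}.Finite) ∧
    -- at every `c` which is not a root of unity they have gaps tending to infinity and density zero
    (∀ c : ℂ, (∀ k : ℕ, 0 < k → c ^ k ≠ 1) → Sparse (exceptional c)) ∧
    -- in every degree the exceptional parameters of the unit circle have small length
    (∀ n : ℕ, 2 ≤ n → volume {θ : ℝ | θ ∈ Set.Icc 0 (2 * Real.pi) ∧
      n ∈ exceptional (Complex.exp (θ * Complex.I))} ≤ ENNReal.ofReal (12000 * Real.log n / n)) ∧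
    -- at almost every `c` of the unit circle there are few exceptional degrees
    (∀ᵐ θ : ℝ, VerySparse (exceptional (Complex.exp (θ * Complex.I)))) ∧
    -- fixed `ζ = c ^ (n - 1)`: finitely many exceptional degrees off the circle `|1 + ζ| = 1`
    (∀ ζ : ℂ, ‖1 + ζ‖ ≠ 1 → (exceptionalRotated ζ).Finite) ∧
    -- on this circle the exceptional degrees are close to two resonances ...
    (∀ ζ : ℂ, ‖1 + ζ‖ = 1 → ∀ n ∈ exceptionalRotated ζ, 10 ^ 6 ≤ n → 1 ≤ n * ‖ζ‖ →
      ‖ζ‖ * (‖(1 + ζ) ^ n - 1‖ * ‖(1 + ζ) ^ (n + 1) + 1‖) ≤ 28 * Real.log n / n) ∧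
    -- ... and if `1 + ζ` is a root of unity then all but finitely many of them are resonant
    (∀ ζ : ℂ, (∃ k, 0 < k ∧ (1 + ζ) ^ k = 1) →
      {n | ∃ c, c ^ (n - 1) = ζ ∧ n ∈ exceptional c ∧
        (c ^ n + c) ^ n + c ≠ c ^ n + c}.Finite) ∧
    -- if `1 + ζ` is not a root of unity they have gaps tending to infinity and density zero
    (∀ ζ : ℂ, (∀ k : ℕ, 0 < k → (1 + ζ) ^ k ≠ 1) → Sparse (exceptionalRotated ζ)) ∧
    -- at almost every `ζ` with `|1 + ζ| = 1` there are few exceptional degrees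
    (∀ᵐ θ : ℝ, VerySparse (exceptionalRotated (Complex.exp (θ * Complex.I) - 1))) := by
  have hE : ∀ c, exceptional c ⊆ Pool.Agent.R240.Alm.bad c := Pool.Agent.R240.Alm.E_sub
  have hZ : ∀ ζ, exceptionalRotated ζ ⊆ Pool.Agent.K1H32.MB.badz ζ := Pool.Agent.K1H32.MB.Ez_sub
  refine ⟨fun n => ?_, ?_, ?_, ?_, ?_, ?_, ?_, ?_, ?_, ?_, ?_, ?_⟩
  · rw [Pool.Agent.K1H32.MB.lc_iff_multi n]
    exact forall_congr' fun c =>
      (not_not (a := LocallyConnectedAt (N62a1eb23.multibrotSet n) c)).symm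
  · intro c n hn
    exact ⟨(hE c hn).1, Pool.Agent.R240.Alm.log_norm_le (hE c hn), fun hc =>
      Pool.Agent.R240.Alm.norm_cube_le hc (hE c hn)⟩
  · exact fun c hc => (Pool.Agent.R240.Alm.bad_finite hc).subset (hE c)
  · rintro c ⟨k, hk, hck⟩
    exact (Pool.Agent.K1H32.MB.root_fixed hk hck).subset fun n hn => ⟨hE c hn.1, hn.2⟩
  · intro c hc
    exact ⟨fun Q => Pool.Agent.K1H32.MB.gaps_mono (hE c) (Pool.Agent.R240.Alm.gaps hc Q),
      Pool.Agent.K1H32.MB.density_mono (hE c) (Pool.Agent.R240.Alm.density hc)⟩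
  · intro n hn
    refine le_trans (measure_mono ?_) (Pool.Agent.R240.Alm.volume_bad hn)
    exact fun θ hθ => ⟨hθ.1, hE _ hθ.2⟩
  · have h : ∀ m : ℕ, ∀ᵐ θ : ℝ, ∃ K : ℝ, ∀ N : ℕ, 2 ≤ N →
        ((Pool.Agent.R240.Alm.bad (Complex.exp (θ * Complex.I)) ∩ Set.Iic N).ncard : ℝ) ≤
          K * Real.log N ^ (2 + 1 / ((m : ℝ) + 1)) := fun m =>
      Pool.Agent.R240.Alm.ae_count (by
        have : 0 < 1 / ((m : ℝ) + 1) := by positivity
        linarith)
    filter_upwards [ae_all_iff.2 h] with θ hθ s hs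
    exact Pool.Agent.K1H32.MB.count_all
      (fun m => Pool.Agent.K1H32.MB.count_mono (hE _) (hθ m)) hs
  · exact fun ζ hζ => (Pool.Agent.K1H32.MB.finite_off hζ).subset (hZ ζ)
  · exact fun ζ h1 n hn hn6 hz => Pool.Agent.K1H32.MB.rate h1 hn6 hz (hZ ζ hn)
  · rintro ζ ⟨k, hk, h⟩
    exact Pool.Agent.K1H32.MB.root_fixed' hk h
  · intro ζ hζ
    exact ⟨fun Q => Pool.Agent.K1H32.MB.gaps_mono (hZ ζ) (Pool.Agent.K1H32.MB.gaps hζ Q),
      Pool.Agent.K1H32.MB.density_mono (hZ ζ) (Pool.Agent.K1H32.MB.density hζ)⟩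
  · have h : ∀ m : ℕ, ∀ᵐ θ : ℝ, ∃ K : ℝ, ∀ N : ℕ, 2 ≤ N →
        ((Pool.Agent.K1H32.MB.badz (Complex.exp (θ * Complex.I) - 1) ∩ Set.Iic N).ncard : ℝ) ≤
          K * Real.log N ^ (2 + 1 / ((m : ℝ) + 1)) := fun m =>
      Pool.Agent.K1H32.MB.ae_count (by
        have : 0 < 1 / ((m : ℝ) + 1) := by positivity
        linarith)
    filter_upwards [ae_all_iff.2 h] with θ hθ s hs
    exact Pool.Agent.K1H32.MB.count_all
      (fun m => Pool.Agent.K1H32.MB.count_mono (hZ _) (hθ m)) hs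

end Pool.Agent.Results.MP_fcb70f_an.AlmostAllDegrees
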