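import Mathlib
import Pool.Prelude.Def_F_c31e40fa
import Pool.Agent.K1H31.Area

set_option autoImplicit false

open Filter Topology Set Metric MeasureTheory Complex N62a1eb23

namespace Pool.Agent.Results.MP_fcb70f_an.LargeAreas

/-- The escape rate (Green's function) of `z ↦ z ^ d + c` at the point `z`. -/
noncomputable def escapeRate (d : ℕ) (c z : ℂ) : ℝ :=
  limsup (fun n : ℕ => Real.posLog ‖(fun w : ℂ => w ^ d + c)^[n] z‖ / (d : ℝ) ^ n) atTop

/-- The area of the set of points whose escape rate is at most `s`. -/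
noncomputable def area (d : ℕ) (c : ℂ) (s : ℝ) : ℝ := (volume {z : ℂ | escapeRate d c z ≤ s}).toReal

/-- `g` is proper of degree at most `d` from the bounded open set `U` onto a set which contains the
closure of `U`. Polynomial-like maps of degree `d` have this property. -/
def PolynomialLike (d : ℕ) (g : ℂ → ℂ) (U : Set ℂ) : Prop :=
  IsOpen U ∧ Bornology.IsBounded U ∧ closure U ⊆ g '' U ∧
    (∀ K ⊆ g '' U, IsCompact K → IsCompact {z | z ∈ U ∧ g z ∈ K}) ∧
    ∀ w ∈ g '' U, {z | z ∈ U ∧ g z = w}.encard ≤ d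

/-- `z ↦ z ^ d + c` is renormalizable of period `p`. -/
def Renormalizable (d : ℕ) (c : ℂ) (p : ℕ) : Prop :=
  ∃ U : Set ℂ, PolynomialLike d ((fun z : ℂ => z ^ d + c)^[p]) U ∧ (0 : ℂ) ∈ U ∧
    ∀ n : ℕ, 1 ≤ n → (fun z : ℂ => z ^ d + c)^[n * p] 0 ∈ U

/-- Parameters with large areas. For `q = 1` and for every period `q` of renormalization, and for
every `α > 1 / q`, the area of the set of points whose escape rate is at most `s` is more than
`s ^ α` for all small `s`. -/
def Large (d : ℕ) (c : ℂ) : Prop :=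
  ∀ q : ℕ, 1 ≤ q → (q = 1 ∨ Renormalizable d c q) → ∀ α : ℝ, 1 / q < α →
    ∀ᶠ s : ℝ in 𝓝[>] 0, s ^ α < area d c s

/-- `K` is locally connected at `c` in the weak sense (connected im kleinen): the points of `K`
close to `c` are joined to `c` by small connected subsets of `K`. -/
def LocallyConnectedAt (K : Set ℂ) (c : ℂ) : Prop :=
  ∀ ε : ℝ, 0 < ε → ∃ δ : ℝ, 0 < δ ∧ ∀ q ∈ K, dist q c < δ →
    ∃ C ⊆ K ∩ ball c ε, IsPreconnected C ∧ c ∈ C ∧ q ∈ C

theorem large_of {d : ℕ} (hd : 2 ≤ d) {c : ℂ} (hc : c ∈ multibrotSet d)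
    (h : Pool.Agent.K1H31.Area.Fat d c) : Large d c := by
  intro q hq hr α hα
  refine h q hq ?_ α hα
  rcases hr with rfl | hr
  · exact Pool.Agent.Y736.RN.ren_one hd hc
  · exact hr

/-- **Local connectivity of the Multibrot sets is decided where the areas are large.** Every
parameter `p` at which the Multibrot set of degree `d ≥ 3` is not locally connected is surrounded by
parameters with large areas of the same kind, on almost every small circle about `p`. -/
theorem result (d : ℕ) (hd3 : 3 ≤ d) :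
    (LocallyConnectedSpace (multibrotSet d) ↔
      ∀ c ∈ frontier (multibrotSet d), Large d c → LocallyConnectedAt (multibrotSet d) c) ∧
    ∀ p : ℂ, ¬ LocallyConnectedAt (multibrotSet d) p →
      ∃ ε : ℝ, 0 < ε ∧ ∀ᵐ s : ℝ, 0 < s → s < ε →
        ∃ c ∈ frontier (multibrotSet d), dist c p = s ∧ Large d c ∧
          ¬ LocallyConnectedAt (multibrotSet d) c := by
  have hd : 2 ≤ d := by omega
  have hcl : IsClosed (multibrotSet d) := (Pool.Agent.H712R2.isCompact_multibrot hd).isClosed
  refine ⟨⟨?_, ?_⟩, ?_⟩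
  · intro h c hc _
    exact Pool.Agent.R240.Loc.lcs_iff.1 h c (hcl.frontier_subset hc)
  · intro h
    refine Pool.Agent.R240.Loc.lcs_iff.2 fun p _ => ?_
    exact Pool.Agent.K1H31.Area.local_iff_fat hd
      (fun c hc hf => h c hc (large_of hd (hcl.frontier_subset hc) hf)) p
  · intro p hp
    obtain ⟨ε, hε, h1⟩ := Pool.Agent.K1H31.Area.spread_fat hd (p₀ := p) hp
    refine ⟨ε, hε, ?_⟩
    filter_upwards [h1] with s hs hs0 hsε
    obtain ⟨c, hc, h3, h4, h5⟩ := hs hs0 hsε
    exact ⟨c, hc, h3, large_of hd (hcl.frontier_subset hc) h4, h5⟩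

end Pool.Agent.Results.MP_fcb70f_an.LargeAreas
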