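import Mathlib
import Pool.Prelude.Def_F_c31e40fa
import Pool.Agent.R240.Res3

set_option autoImplicit false

open Filter Topology Set Metric MeasureTheory Complex N62a1eb23

namespace Pool.Agent.Results.MP_fcb70f_an.NonresonantParameters

/-- The map `z ↦ z ^ d + c`. -/
def f (d : ℕ) (c : ℂ) : ℂ → ℂ := fun z => z ^ d + c

/-- The point `f_c^n (0)` of the critical orbit. If `P d n a = 0` and `n ≥ 1`, then `a` is a
superattracting parameter of period dividing `n`. -/
def P (d n : ℕ) (c : ℂ) : ℂ := (f d c)^[n] 0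

/-- The perturbation `(id + t Φ) ∘ f_c` of `f_c`. For `Φ = 1` it is `f_(c + t)`. -/
def g (d : ℕ) (c : ℂ) (Φ : ℂ → ℂ) (t : ℂ) : ℂ → ℂ := fun z => f d c z + t * Φ (f d c z)

/-- `h` is proper of degree at most `d` from the bounded open set `U` onto a set which contains the
closure of `U`. Polynomial-like maps of degree `d` have this property. -/
def PolynomialLike (d : ℕ) (h : ℂ → ℂ) (U : Set ℂ) : Prop :=
  IsOpen U ∧ Bornology.IsBounded U ∧ closure U ⊆ h '' U ∧
    (∀ K ⊆ h '' U, IsCompact K → IsCompact {z | z ∈ U ∧ h z ∈ K}) ∧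
    ∀ w ∈ h '' U, {z | z ∈ U ∧ h z = w}.encard ≤ d

/-- `z ↦ z ^ d + c` is renormalizable of period `p`. -/
def Renormalizable (d : ℕ) (c : ℂ) (p : ℕ) : Prop :=
  ∃ U : Set ℂ, PolynomialLike d ((f d c)^[p]) U ∧ (0 : ℂ) ∈ U ∧
    (∀ n : ℕ, 1 ≤ n → (f d c)^[n * p] 0 ∈ U) ∧ ∀ z ∈ U, deriv ((f d c)^[p]) z = 0 → z = 0

/-- Nonresonant parameters. For `q = 1` and for every period `q` of renormalization, for every
`X > log d / q` and all large `n`, all superattracting parameters of period dividing `n` are at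
distance more than `exp (- X n)`, and every holomorphic perturbation of the map moves the `n`-th
point of the critical orbit with a speed which is at most `exp (X n)` times its size (up to a
logarithm and a constant). -/
def Nonresonant (d : ℕ) (K : ℝ) (c : ℂ) : Prop :=
  ∀ q : ℕ, 1 ≤ q → (q = 1 ∨ Renormalizable d c q) → ∀ X : ℝ, Real.log d / q < X →
    ∀ᶠ n : ℕ in atTop, (∀ a : ℂ, P d n a = 0 → Real.exp (-(X * n)) < dist a c) ∧
      ∀ (Φ : ℂ → ℂ) (M : ℝ), DifferentiableOn ℂ Φ (ball 0 4) →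
        (∀ x ∈ ball (0 : ℂ) 4, ‖Φ x‖ ≤ M) →
        DifferentiableAt ℂ (fun t : ℂ => (g d c Φ t)^[n] 0) 0 ∧
        ‖deriv (fun t : ℂ => (g d c Φ t)^[n] 0) 0‖ ≤
          K * M * Real.exp (X * n) * (‖P d n c‖ * (1 + |Real.log ‖P d n c‖|))

/-- `K` is locally connected at `c` in the weak sense (connected im kleinen): the points of `K`
close to `c` are joined to `c` by small connected subsets of `K`. -/
def LocallyConnectedAt (K : Set ℂ) (c : ℂ) : Prop :=
  ∀ ε : ℝ, 0 < ε → ∃ δ : ℝ, 0 < δ ∧ ∀ q ∈ K, dist q c < δ →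
    ∃ C ⊆ K ∩ ball c ε, IsPreconnected C ∧ c ∈ C ∧ q ∈ C

theorem nonres {d : ℕ} (hd : 2 ≤ d) {c : ℂ} (hc : c ∈ multibrotSet d)
    (h : Pool.Agent.R240.Res.Nonres d c) : Nonresonant d Pool.Agent.R240.Res.KR c := by
  intro q hq hr X hX
  have h1 := h q hq hr X hX
  filter_upwards [h1] with n hn
  refine ⟨fun a ha => ?_, fun Φ M hΦ hM => ?_⟩
  · rw [dist_eq_norm]
    exact hn.1 a ha
  · have h2 : HasDerivAt (fun t : ℂ => (g d c Φ t)^[n] 0) (Pool.Agent.R240.Univ.vel d c Φ n) 0 :=
      Pool.Agent.R240.Univ.vel_deriv hd hc hΦ n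
    refine ⟨h2.differentiableAt, ?_⟩
    rw [h2.deriv]
    exact hn.2 Φ M hΦ hM

/-- **Local connectivity of the Multibrot sets is decided at the nonresonant parameters.** With one
constant `K` for all degrees `d ≥ 3`: every parameter `p` at which the Multibrot set of degree `d` is
not locally connected is surrounded by nonresonant parameters of the same kind, on almost every small
circle about `p`. -/
theorem result :
    ∃ K : ℝ, 0 < K ∧ ∀ d : ℕ, 3 ≤ d →
      (LocallyConnectedSpace (multibrotSet d) ↔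
        ∀ c ∈ frontier (multibrotSet d), Nonresonant d K c →
          LocallyConnectedAt (multibrotSet d) c) ∧
      ∀ p : ℂ, ¬ LocallyConnectedAt (multibrotSet d) p →
        ∃ ε : ℝ, 0 < ε ∧ ∀ᵐ s : ℝ, 0 < s → s < ε →
          ∃ c ∈ frontier (multibrotSet d), dist c p = s ∧ Nonresonant d K c ∧
            ¬ LocallyConnectedAt (multibrotSet d) c := by
  refine ⟨Pool.Agent.R240.Res.KR, Pool.Agent.R240.Res.KR_pos, fun d hd3 => ?_⟩
  have hd : 2 ≤ d := by omega
  have hcl : IsClosed (multibrotSet d) := (Pool.Agent.H712R2.isCompact_multibrot hd).isClosed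
  refine ⟨?_, ?_⟩
  · constructor
    · intro h c hc _
      exact Pool.Agent.R240.Loc.lcs_iff.1 h c (hcl.frontier_subset hc)
    · intro h
      refine Pool.Agent.R240.Loc.lcs_iff.2 fun p _ => ?_
      exact Pool.Agent.R240.Res.local_iff hd one_pos
        fun c hc _ _ hs => h c hc (nonres hd (hcl.frontier_subset hc) hs)
  · intro p hp
    obtain ⟨ε, hε, h1⟩ := Pool.Agent.R240.Res.spread_nonres hd (p₀ := p) hp
    refine ⟨ε, hε, ?_⟩
    filter_upwards [h1] with s hs hs0 hsε
    obtain ⟨c, hc, h2, h3, h4⟩ := hs hs0 hsε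
    exact ⟨c, hc, h2, nonres hd (hcl.frontier_subset hc) h3, h4⟩

end Pool.Agent.Results.MP_fcb70f_an.NonresonantParameters
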