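import Mathlib
import Pool.Prelude.Def_F_c31e40fa
import Pool.Agent.R240.Sparse

set_option autoImplicit false

open Filter Topology Set Metric MeasureTheory Complex N62a1eb23

namespace Pool.Agent.Results.MP_fcb70f_an.SparseCentres

/-- The superattracting parameters of period dividing `n` in the open disc of radius `r` about
`c`: the parameters `a` such that `0` is periodic under `z ↦ z ^ d + a`. -/
def centres (d n : ℕ) (c : ℂ) (r : ℝ) : Set ℂ :=
  {a | a ∈ ball c r ∧ (fun z : ℂ => z ^ d + a)^[n] 0 = 0}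

/-- `g` is proper of degree at most `d` from the bounded open set `U` onto a set which contains the
closure of `U`. Polynomial-like maps of degree `d` have this property. -/
def PolynomialLike (d : ℕ) (g : ℂ → ℂ) (U : Set ℂ) : Prop :=
  IsOpen U ∧ Bornology.IsBounded U ∧ closure U ⊆ g '' U ∧
    (∀ K ⊆ g '' U, IsCompact K → IsCompact {z | z ∈ U ∧ g z ∈ K}) ∧
    ∀ w ∈ g '' U, {z | z ∈ U ∧ g z = w}.encard ≤ d

/-- `z ↦ z ^ d + c` is renormalizable of period `p`. -/
def Renormalizable (d : ℕ) (c : ℂ) (p : ℕ) : Prop :=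
  ∃ U : Set ℂ, PolynomialLike d ((fun z : ℂ => z ^ d + c)^[p]) U ∧ (0 : ℂ) ∈ U ∧
    ∀ n : ℕ, 1 ≤ n → (fun z : ℂ => z ^ d + c)^[n * p] 0 ∈ U

/-- Sparse parameters. For `q = 1` and for every period `q` of renormalization, and for every
`κ < q`, all small discs of radius `r` about `c` contain at most
`d ^ (n - 1) * r ^ κ + K * n * log d` superattracting parameters of period dividing `n`, for all
`n ≥ 1` at the same time. -/
def Sparse (d : ℕ) (K : ℝ) (c : ℂ) : Prop :=
  ∀ q : ℕ, 1 ≤ q → (q = 1 ∨ Renormalizable d c q) → ∀ κ : ℝ, 0 < κ → κ < q →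
    ∀ᶠ r : ℝ in 𝓝[>] 0, ∀ n : ℕ, 1 ≤ n →
      ((centres d n c r).ncard : ℝ) ≤ (d : ℝ) ^ (n - 1) * r ^ κ + K * n * Real.log d

/-- `K` is locally connected at `c` in the weak sense (connected im kleinen): the points of `K`
close to `c` are joined to `c` by small connected subsets of `K`. -/
def LocallyConnectedAt (K : Set ℂ) (c : ℂ) : Prop :=
  ∀ ε : ℝ, 0 < ε → ∃ δ : ℝ, 0 < δ ∧ ∀ q ∈ K, dist q c < δ →
    ∃ C ⊆ K ∩ ball c ε, IsPreconnected C ∧ c ∈ C ∧ q ∈ C

theorem sparse_of {d : ℕ} {c : ℂ}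
    (h : Pool.Agent.R240.Sparse.SparseAt d Pool.Agent.R240.LL.KL c) :
    Sparse d Pool.Agent.R240.LL.KL c := by
  intro q hq hr κ hκ0 hκ
  filter_upwards [h q hq hr κ hκ0 hκ] with r h1 n hn
  exact h1 n hn

/-- **Local connectivity of the Multibrot sets is decided where the superattracting parameters are
sparse.** With one constant `K` for all degrees `d ≥ 3`: every parameter `p` at which the Multibrot
set of degree `d` is not locally connected is surrounded by sparse parameters of the same kind, on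
almost every small circle about `p`. -/
theorem result :
    ∃ K : ℝ, 0 < K ∧ ∀ d : ℕ, 3 ≤ d →
      (∀ n : ℕ, 1 ≤ n → ∀ (c : ℂ) (r : ℝ), (centres d n c r).Finite) ∧
      (LocallyConnectedSpace (multibrotSet d) ↔
        ∀ c ∈ frontier (multibrotSet d), Sparse d K c → LocallyConnectedAt (multibrotSet d) c) ∧
      ∀ p : ℂ, ¬ LocallyConnectedAt (multibrotSet d) p →
        ∃ ε : ℝ, 0 < ε ∧ ∀ᵐ s : ℝ, 0 < s → s < ε →
          ∃ c ∈ frontier (multibrotSet d), dist c p = s ∧ Sparse d K c ∧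
            ¬ LocallyConnectedAt (multibrotSet d) c := by
  refine ⟨Pool.Agent.R240.LL.KL, Pool.Agent.R240.LL.KL_pos, fun d hd3 => ?_⟩
  have hd : 2 ≤ d := by omega
  refine ⟨?_, ?_, ?_⟩
  · intro n hn c r
    obtain ⟨N, rfl⟩ : ∃ N, n = N + 1 := ⟨n - 1, by omega⟩
    exact (Pool.Agent.R240.LL.ZZ d N).finite_toSet.subset fun a ha =>
      (Pool.Agent.R240.LL.mem_ZZ hd).2 ha.2
  · constructor
    · intro h c hc _
      exact Pool.Agent.R240.Loc.lcs_iff.1 h c
        ((Pool.Agent.H712R2.isCompact_multibrot hd).isClosed.frontier_subset hc)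
    · intro h
      refine Pool.Agent.R240.Loc.lcs_iff.2 fun p _ => ?_
      exact Pool.Agent.R240.Sparse.local_iff hd one_pos
        fun c hc _ _ hs => h c hc (sparse_of hs)
  · intro p hp
    obtain ⟨ε, hε, h1⟩ := Pool.Agent.R240.Sparse.spread hd (p₀ := p) hp
    refine ⟨ε, hε, ?_⟩
    filter_upwards [h1] with s hs hs0 hsε
    obtain ⟨c, hc, h3, h4, h5⟩ := hs hs0 hsε
    exact ⟨c, hc, h3, sparse_of h4, h5⟩

end Pool.Agent.Results.MP_fcb70f_an.SparseCentres
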